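import Pool.Agent.TTC.StmtsF

set_option autoImplicit false

/-! Squad TTC, row SIM (MP_160b6c_nt): a place at which the root of the sextic is a simple root. -/

open Polynomial NumberField

namespace Pool.Agent.TTC.H50

/-- the monic sextic with the root `a_0 α` -/
noncomputable def gg {R : Type} [CommRing R] (a : Fin 7 → R) : R[X] :=
  X ^ 6 + C (a 1) * X ^ 5 + C (a 2 * a 0) * X ^ 4 + C (a 3 * a 0 ^ 2) * X ^ 3 +
    C (a 4 * a 0 ^ 3) * X ^ 2 + C (a 5 * a 0 ^ 4) * X + C (a 6 * a 0 ^ 5)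

theorem gg_map {R S : Type} [CommRing R] [CommRing S] (φ : R →+* S) (a : Fin 7 → R) :
    (gg a).map φ = gg (fun i => φ (a i)) := by
  simp [gg, Polynomial.map_add, Polynomial.map_mul, Polynomial.map_pow]

theorem gg_eval {R : Type} [CommRing R] (a : Fin 7 → R) (x : R) :
    (gg a).eval (a 0 * x) = a 0 ^ 5 * (sext a).eval x := by
  simp only [gg, sext, eval_add, eval_mul, eval_pow, eval_X, eval_C]
  ring

theorem gg_d1 {R : Type} [CommRing R] (a : Fin 7 → R) (x : R) :
    (derivative (gg a)).eval (a 0 * x) = a 0 ^ 4 * (derivative (sext a)).eval x := by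
  simp [gg, sext, derivative_mul, derivative_pow]
  ring

theorem gg_d2 {R : Type} [CommRing R] (a : Fin 7 → R) (x : R) :
    (derivative (derivative (gg a))).eval (a 0 * x) =
      a 0 ^ 3 * (derivative (derivative (sext a))).eval x := by
  simp [gg, sext, derivative_mul, derivative_pow]
  ring

theorem gg_monic {R : Type} [CommRing R] (a : Fin 7 → R) : (gg a).Monic := by
  unfold gg
  monicity!

/-- a factor of degree at least three has a simple root -/
theorem cl {k : Type} [Field k] [IsAlgClosed k] (a : Fin 7 → k) (ha : a 0 ≠ 0)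
    (h : OneNode (sext a)) (m : k[X]) (hn : 3 ≤ m.natDegree) (hd : m ∣ gg a) :
    ∃ ω, m.eval ω = 0 ∧ (derivative (gg a)).eval ω ≠ 0 := by
  classical
  by_contra hcon
  push Not at hcon
  obtain ⟨θ, h1, h2, h3, h4⟩ := h
  have hroot : ∀ ω ∈ m.roots, ω = a 0 * θ := by
    intro ω hω
    have h5 : m.eval ω = 0 := (mem_roots'.1 hω).2
    have h6 := hcon ω h5
    have h7 : (gg a).eval ω = 0 := by
      obtain ⟨q, hq⟩ := hd
      rw [hq, eval_mul, h5, zero_mul]
    have h8 : ω = a 0 * ((a 0)⁻¹ * ω) := by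
      rw [← mul_assoc, mul_inv_cancel₀ ha, one_mul]
    rw [h8, gg_eval] at h7
    rw [h8, gg_d1] at h6
    have h9 := h4 _ ((mul_eq_zero.1 h7).resolve_left (pow_ne_zero _ ha))
      ((mul_eq_zero.1 h6).resolve_left (pow_ne_zero _ ha))
    rw [h8, h9]
  have hcard : Multiset.card m.roots = m.natDegree :=
    splits_iff_card_roots.1 (IsAlgClosed.splits m)
  have hrep : m.roots = Multiset.replicate m.natDegree (a 0 * θ) :=
    Multiset.eq_replicate.2 ⟨hcard, hroot⟩
  have hmul : rootMultiplicity (a 0 * θ) m = m.natDegree := by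
    rw [← count_roots, hrep, Multiset.count_replicate_self]
  have hdvd : (X - C (a 0 * θ)) ^ 3 ∣ gg a :=
    ((pow_dvd_pow _ hn).trans (hmul ▸ pow_rootMultiplicity_dvd m (a 0 * θ))).trans hd
  obtain ⟨q, hq⟩ := hdvd
  have h10 := gg_d2 a θ
  rw [hq] at h10
  have h11 : (derivative (derivative ((X - C (a 0 * θ)) ^ 3 * q))).eval (a 0 * θ) = 0 := by
    simp [derivative_mul, derivative_pow]
  rw [h11] at h10
  exact h3 ((mul_eq_zero.1 h10.symm).resolve_left (pow_ne_zero _ ha))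

/-- the degree of the minimal polynomial of `a_0 α` -/
theorem dg (K : Type) [Field K] [NumberField K] (a0 : ℤ) (h0 : a0 ≠ 0) (α : K) (μ : ℤ[X])
    (hμ : μ.Monic) (h : aeval ((a0 : K) * α) μ = 0) : (minpoly ℚ α).natDegree ≤ μ.natDegree := by
  have h1 : aeval α ((μ.map (algebraMap ℤ ℚ)).comp (C (a0 : ℚ) * X)) = 0 := by
    rw [aeval_comp, aeval_map_algebraMap]
    have : aeval α (C (a0 : ℚ) * X) = (a0 : K) * α := by
      simp
    rw [this]
    exact h
  have h2 : ((μ.map (algebraMap ℤ ℚ)).comp (C (a0 : ℚ) * X)).natDegree = μ.natDegree := by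
    rw [natDegree_comp, natDegree_C_mul_X _ (by exact_mod_cast h0), mul_one, hμ.natDegree_map]
  have h3 : (μ.map (algebraMap ℤ ℚ)).comp (C (a0 : ℚ) * X) ≠ 0 := by
    intro h4
    rw [comp_eq_zero_iff] at h4
    rcases h4 with h4 | ⟨-, h4⟩
    · exact (hμ.map _).ne_zero h4
    · have h5 := congrArg (fun f => coeff f 1) h4
      simp at h5
      exact h0 h5
  rw [← h2]
  exact natDegree_le_natDegree (minpoly.degree_le_of_ne_zero ℚ α h3 h1)

/-- **SIM** -/
theorem sim (hna : Na6Stmt) (hcr : Cr6Stmt) : SimStmt := by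
  intro K _ _ a α p hp hd he hα hdeg
  have hfp : Fact p.Prime := ⟨hp⟩
  obtain ⟨h1, h2, h3, -⟩ := hna ℤ (AlgebraicClosure (ZMod p)) (Int.castRingHom _) a
  have hch : CharP (AlgebraicClosure (ZMod p)) p :=
    charP_of_injective_algebraMap (algebraMap (ZMod p) (AlgebraicClosure (ZMod p))).injective p
  set φ : ℤ →+* AlgebraicClosure (ZMod p) := Int.castRingHom _ with hφ
  have hφz : ∀ n : ℤ, φ n = 0 ↔ (p : ℤ) ∣ n := fun n => CharP.intCast_eq_zero_iff _ p n
  have hd6 : d6 (fun i => φ (a i)) = 0 := by rw [h2]; exact (hφz _).2 hd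
  have he6 : e6 (fun i => φ (a i)) ≠ 0 := by rw [h3]; exact fun h => he ((hφz _).1 h)
  have he6' := he6
  unfold e6 at he6'
  have h6 : (6 : AlgebraicClosure (ZMod p)) ≠ 0 := fun h => he6' (by rw [h]; simp)
  have ha0 : φ (a 0) ≠ 0 := fun h => he6' (by
    show 6 * φ (a 0) * _ = 0
    rw [h]
    simp)
  have hnode : OneNode (sext fun i => φ (a i)) := (hcr _ _ h6 ha0).2.1 ⟨hd6, he6⟩
  have hZ : a 0 ≠ 0 := fun h => ha0 (by rw [h, map_zero])
  -- the integral element
  have hβ0 : (gg fun i => ((a i : ℤ) : K)).eval ((a 0 : K) * α) = 0 := by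
    refine (gg_eval (fun i => ((a i : ℤ) : K)) α).trans ?_
    have hs : sext (fun i => ((a i : ℤ) : K)) = (sext a).map (Int.castRingHom K) :=
      (hna ℤ K (Int.castRingHom K) a).1
    rw [hs, hα, mul_zero]
  have hβ : aeval ((a 0 : K) * α) (gg a) = 0 := by
    rw [aeval_def, ← eval_map, gg_map]
    exact hβ0
  have hint : IsIntegral ℤ ((a 0 : K) * α) := ⟨gg a, gg_monic a, hβ⟩
  set β : K := (a 0 : K) * α with hβdef
  set β' : 𝓞 K := ⟨β, hint⟩ with hβ'
  have hcoe : (β' : K) = β := rfl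
  have hμ : (minpoly ℤ β).Monic := minpoly.monic hint
  have hμn : 3 ≤ (minpoly ℤ β).natDegree :=
    hdeg.trans (dg K (a 0) hZ α _ hμ (minpoly.aeval ℤ β))
  have hμd : minpoly ℤ β ∣ gg a := minpoly.isIntegrallyClosed_dvd hint hβ
  obtain ⟨ω, hω1, hω2⟩ := cl (fun i => φ (a i)) ha0 hnode ((minpoly ℤ β).map φ)
    (by rw [hμ.natDegree_map]; exact hμn) (by rw [← gg_map]; exact Polynomial.map_dvd φ hμd)
  -- lying over
  let _ : Algebra ℤ[X] (𝓞 K) := (eval₂RingHom (algebraMap ℤ (𝓞 K)) β').toAlgebra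
  have halg : ∀ g : ℤ[X], algebraMap ℤ[X] (𝓞 K) g = eval₂ (algebraMap ℤ (𝓞 K)) β' g := fun _ => rfl
  have : IsScalarTower ℤ ℤ[X] (𝓞 K) := IsScalarTower.of_algebraMap_eq' (RingHom.ext_int _ _)
  have : Algebra.IsIntegral ℤ[X] (𝓞 K) :=
    ⟨fun y => (Algebra.IsIntegral.isIntegral (R := ℤ) y).tower_top⟩
  have hker : Ideal.comap (algebraMap ℤ[X] (𝓞 K)) ⊥ ≤ RingHom.ker (eval₂RingHom φ ω) := by
    intro g hg
    rw [Ideal.mem_comap, Ideal.mem_bot, halg] at hg
    have hg2 : aeval β g = 0 := by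
      have h7 := congrArg (algebraMap (𝓞 K) K) hg
      rw [map_zero, hom_eval₂] at h7
      rw [aeval_def, ← h7]
      congr 1
    obtain ⟨q, hq⟩ := minpoly.isIntegrallyClosed_dvd hint hg2
    rw [RingHom.mem_ker, coe_eval₂RingHom, ← eval_map, hq, Polynomial.map_mul, eval_mul, hω1, zero_mul]
  have hprime : (RingHom.ker (eval₂RingHom φ ω)).IsPrime := RingHom.ker_isPrime _
  obtain ⟨Q, -, hQ, hQP⟩ := Ideal.exists_ideal_over_prime_of_isIntegral
    (RingHom.ker (eval₂RingHom φ ω)) (⊥ : Ideal (𝓞 K)) hker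
  have hmem : ∀ g : ℤ[X], algebraMap ℤ[X] (𝓞 K) g ∈ Q ↔ (g.map φ).eval ω = 0 := by
    intro g
    rw [← Ideal.mem_comap, hQP, RingHom.mem_ker, coe_eval₂RingHom, eval_map]
  have hint' : ∀ n : ℤ, (n : 𝓞 K) ∈ Q ↔ φ n = 0 := by
    intro n
    have h7 := hmem (C n)
    rw [halg, eval₂_C, map_C, eval_C] at h7
    simpa using h7
  have hpQ : (p : 𝓞 K) ∈ Q := by
    have h7 := (hint' (p : ℤ)).2 ((hφz _).2 dvd_rfl)
    simpa using h7
  have hbot : Q ≠ ⊥ := by
    intro h
    rw [h, Ideal.mem_bot] at hpQ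
    exact Nat.cast_ne_zero.2 hp.ne_zero hpQ
  let w : IsDedekindDomain.HeightOneSpectrum (𝓞 K) := ⟨Q, hQ, hbot⟩
  refine ⟨FinitePlace.mk w, ?_, ?_⟩
  · rw [FinitePlace.mk_apply]
    have h7 := (FinitePlace.norm_lt_one_iff_mem K w (p : 𝓞 K)).2 hpQ
    simpa using h7
  · have h7 : FinitePlace.mk w ((a 0 : K)) = 1 := by
      rw [FinitePlace.mk_apply]
      have h8 := (FinitePlace.norm_eq_one_iff_notMem K w ((a 0 : ℤ) : 𝓞 K)).2 fun h => ha0 ((hint' _).1 h)
      simpa using h8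
    have h9 : FinitePlace.mk w (eval β (derivative (gg fun i => ((a i : ℤ) : K)))) = 1 := by
      rw [FinitePlace.mk_apply]
      have h10 := (FinitePlace.norm_eq_one_iff_notMem K w (algebraMap ℤ[X] (𝓞 K) (derivative (gg a)))).2
        fun h => hω2 (by
          have h11 := (hmem _).1 h
          rwa [← derivative_map, gg_map] at h11)
      have h12 : algebraMap (𝓞 K) K (algebraMap ℤ[X] (𝓞 K) (derivative (gg a))) =
          eval β (derivative (gg fun i => ((a i : ℤ) : K))) := by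
        have h16 : (gg fun i => ((a i : ℤ) : K)) = (gg a).map (Int.castRingHom K) :=
          (gg_map (Int.castRingHom K) a).symm
        rw [halg, h16, derivative_map, eval_map]
        have h13 := hom_eval₂ (derivative (gg a)) (algebraMap ℤ (𝓞 K)) (algebraMap (𝓞 K) K) β'
        rw [h13]
        congr 1
      rw [← h12]
      exact h10
    have h14 : eval β (derivative (gg fun i => ((a i : ℤ) : K))) = (a 0 : K) ^ 4 *
        eval α (derivative (sext fun i => ((a i : ℤ) : K))) := gg_d1 (fun i => ((a i : ℤ) : K)) α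
    rw [h14, map_mul, map_pow, h7, one_pow, one_mul] at h9
    have hs : sext (fun i => ((a i : ℤ) : K)) = (sext a).map (Int.castRingHom K) :=
      (hna ℤ K (Int.castRingHom K) a).1
    rwa [hs] at h9

end Pool.Agent.TTC.H50
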