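import Pool.Agent.TTC.StmtsG
import Pool.Agent.Helper50_TTC.SIM

set_option autoImplicit false

/-! Squad TTC, row SI7 (MP_160b6c_nt): a root of the sextic with simple reduction. -/

open Polynomial NumberField

namespace Pool.Agent.TTC.H50

theorem sext_c6 {R : Type} [CommRing R] (a : Fin 7 → R) : (sext a).coeff 6 = a 0 := by
  simp [sext, coeff_X, coeff_C]

/-- a product formula without denominators -/
theorem prod7 (K : Type) [Field K] [NumberField K] (a : Fin 7 → ℤ) (h0 : a 0 ≠ 0)
    (hs : ((sext a).map (Int.castRingHom K)).Splits) (b : K → 𝓞 K)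
    (hb : ∀ α : K, ((sext a).map (Int.castRingHom K)).eval α = 0 → ((b α : 𝓞 K) : K) = (a 0 : K) * α) :
    C ((a 0 : 𝓞 K) ^ 5) * (sext a).map (Int.castRingHom (𝓞 K)) =
      (((sext a).map (Int.castRingHom K)).roots.map fun α => C (a 0 : 𝓞 K) * X - C (b α)).prod := by
  have hmap : (sext a).map (Int.castRingHom K) = sext (fun i => ((a i : ℤ) : K)) := by
    simp [sext, Polynomial.map_add, Polynomial.map_mul, Polynomial.map_pow]
  have hK : ((a 0 : ℤ) : K) ≠ 0 := by exact_mod_cast h0
  have hdeg : (sext (fun i => ((a i : ℤ) : K))).natDegree = 6 := by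
    unfold sext
    compute_degree!
  have hlc : ((sext a).map (Int.castRingHom K)).leadingCoeff = (a 0 : K) := by
    rw [hmap, leadingCoeff, hdeg]
    exact sext_c6 _
  have hne : (sext a).map (Int.castRingHom K) ≠ 0 := by
    rw [← leadingCoeff_ne_zero, hlc]
    exact hK
  have hcard : Multiset.card ((sext a).map (Int.castRingHom K)).roots = 6 := by
    rw [splits_iff_card_roots.1 hs, hmap, hdeg]
  apply Polynomial.map_injective (algebraMap (𝓞 K) K) (RingOfIntegers.coe_injective)
  have h1 : (C ((a 0 : 𝓞 K) ^ 5) * (sext a).map (Int.castRingHom (𝓞 K))).map (algebraMap (𝓞 K) K) =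
      C ((a 0 : K) ^ 5) * (sext a).map (Int.castRingHom K) := by
    rw [Polynomial.map_mul, map_C, Polynomial.map_map]
    congr 1
  rw [h1, Polynomial.map_multiset_prod, Multiset.map_map]
  have h2 : (((sext a).map (Int.castRingHom K)).roots.map
      ((Polynomial.map (algebraMap (𝓞 K) K)) ∘ fun α => C (a 0 : 𝓞 K) * X - C (b α))) =
      (((sext a).map (Int.castRingHom K)).roots.map fun α => C (a 0 : K) * (X - C α)) := by
    refine Multiset.map_congr rfl fun α hα => ?_
    have h3 := hb α ((mem_roots hne).1 hα)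
    have h4 : algebraMap (𝓞 K) K (b α) = (a 0 : K) * α := h3
    simp only [Function.comp_apply, Polynomial.map_sub, Polynomial.map_mul, map_X, map_C, h4, map_intCast]
    rw [C_mul]
    simp only [map_intCast, Polynomial.map_intCast]
    ring
  rw [h2, Multiset.prod_map_mul, Multiset.map_const', Multiset.prod_replicate, hcard]
  conv_lhs => rw [hs.eq_prod_roots, hlc]
  rw [← C_pow]
  simp only [map_pow, map_intCast]
  ring

/-- **SI7** -/
theorem si7 (hna : Na6Stmt) (hna7 : Na7Stmt) (hcr : Cr7Stmt) : Si7Stmt := by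
  intro K _ _ v a p j m hp hv hd he hs
  set Q : Ideal (𝓞 K) := v.maximalIdeal.asIdeal with hQdef
  have hQ : Q.IsPrime := v.maximalIdeal.isPrime
  have hmem : ∀ x : 𝓞 K, v (x : K) < 1 ↔ x ∈ Q := by
    intro x
    rw [← FinitePlace.norm_embedding_eq]
    exact FinitePlace.norm_lt_one_iff_mem K v.maximalIdeal x
  have hnot : ∀ x : 𝓞 K, v (x : K) = 1 ↔ x ∉ Q := by
    intro x
    rw [← FinitePlace.norm_embedding_eq]
    exact FinitePlace.norm_eq_one_iff_notMem K v.maximalIdeal x
  let k : Type := AlgebraicClosure (FractionRing (𝓞 K ⧸ Q))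
  let ψ : 𝓞 K →+* k := ((algebraMap (FractionRing (𝓞 K ⧸ Q)) k).comp
    (algebraMap (𝓞 K ⧸ Q) (FractionRing (𝓞 K ⧸ Q)))).comp (Ideal.Quotient.mk Q)
  have hψ : ∀ x : 𝓞 K, ψ x = 0 ↔ x ∈ Q := by
    intro x
    have h1 : ψ x = algebraMap (FractionRing (𝓞 K ⧸ Q)) k
        (algebraMap (𝓞 K ⧸ Q) (FractionRing (𝓞 K ⧸ Q)) (Ideal.Quotient.mk Q x)) := rfl
    rw [h1, map_eq_zero_iff _ (algebraMap (FractionRing (𝓞 K ⧸ Q)) k).injective,
      map_eq_zero_iff _ (IsFractionRing.injective (𝓞 K ⧸ Q) (FractionRing (𝓞 K ⧸ Q))),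
      Ideal.Quotient.eq_zero_iff_mem]
  have hpQ : (p : 𝓞 K) ∈ Q := by
    rw [← hmem]
    simpa using hv
  have hint : ∀ n : ℤ, ((n : ℤ) : k) = 0 ↔ (p : ℤ) ∣ n := by
    intro n
    have h1 : ((n : ℤ) : k) = ψ (n : 𝓞 K) := (map_intCast ψ n).symm
    rw [h1, hψ]
    constructor
    · intro hn
      by_contra hnd
      have hco : IsCoprime (p : ℤ) n :=
        (Nat.prime_iff_prime_int.1 hp).coprime_iff_not_dvd.2 hnd
      obtain ⟨x, y, hxy⟩ := hco
      refine hQ.ne_top ((Ideal.eq_top_iff_one _).2 ?_)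
      have h2 : (1 : 𝓞 K) = (x : 𝓞 K) * (p : 𝓞 K) + (y : 𝓞 K) * (n : 𝓞 K) := by
        have := congrArg (Int.cast : ℤ → 𝓞 K) hxy
        push_cast at this
        exact this.symm
      rw [h2]
      exact Q.add_mem (Q.mul_mem_left _ hpQ) (Q.mul_mem_left _ hn)
    · rintro ⟨c, rfl⟩
      push_cast
      exact Q.mul_mem_right _ hpQ
  -- the reduction
  obtain ⟨h1, h2, -, -⟩ := hna ℤ k (Int.castRingHom k) a
  have h3 := hna7 ℤ k (Int.castRingHom k) a j m
  have hd6 : d6 (fun i => Int.castRingHom k (a i)) = 0 := by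
    rw [h2]
    exact (hint _).2 hd
  have he7 : e7 j m (fun i => Int.castRingHom k (a i)) ≠ 0 := by
    rw [h3]
    exact fun h => he ((hint _).1 h)
  have he7' := he7
  unfold e7 at he7'
  have h6 : (6 : k) ≠ 0 := fun h => he7' (by rw [h]; simp)
  have ha0 : Int.castRingHom k (a 0) ≠ 0 := fun h => he7' (by
    show 6 * Int.castRingHom k (a 0) * _ * _ = 0
    rw [h]
    simp)
  obtain ⟨-, -, z, hz1, hz2⟩ := hcr.1 k _ j m h6 ha0 hd6 he7
  have hZ : a 0 ≠ 0 := fun h => ha0 (by rw [h, map_zero])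
  -- the integral elements
  have hgK : ∀ α : K, ((sext a).map (Int.castRingHom K)).eval α = 0 → IsIntegral ℤ ((a 0 : K) * α) := by
    intro α hα
    refine ⟨gg a, gg_monic a, ?_⟩
    have h4 : (gg fun i => ((a i : ℤ) : K)).eval ((a 0 : K) * α) = 0 := by
      refine (gg_eval (fun i => ((a i : ℤ) : K)) α).trans ?_
      have h5 : sext (fun i => ((a i : ℤ) : K)) = (sext a).map (Int.castRingHom K) :=
        (hna ℤ K (Int.castRingHom K) a).1
      rw [h5, hα, mul_zero]
    have h6 : (gg fun i => ((a i : ℤ) : K)) = (gg a).map (Int.castRingHom K) :=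
      (gg_map (Int.castRingHom K) a).symm
    rw [h6, eval_map] at h4
    exact h4
  classical
  let b : K → 𝓞 K := fun α => if h : IsIntegral ℤ ((a 0 : K) * α) then ⟨(a 0 : K) * α, h⟩ else 0
  have hb : ∀ α : K, ((sext a).map (Int.castRingHom K)).eval α = 0 →
      ((b α : 𝓞 K) : K) = (a 0 : K) * α := by
    intro α hα
    have : b α = ⟨(a 0 : K) * α, hgK α hα⟩ := dif_pos (hgK α hα)
    rw [this]
    rfl
  have hprod := congrArg (fun f => eval z (f.map ψ)) (prod7 K a hZ hs b hb)
  have hcomp : ψ.comp (Int.castRingHom (𝓞 K)) = Int.castRingHom k := RingHom.ext_int _ _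
  have hsx : (sext a).map (Int.castRingHom k) = sext (fun i => Int.castRingHom k (a i)) := h1.symm
  simp only [Polynomial.map_mul, Polynomial.map_map, hcomp, hsx, eval_mul, hz1, mul_zero,
    Polynomial.map_multiset_prod, Multiset.map_map] at hprod
  rw [← coe_evalRingHom, map_multiset_prod, Multiset.map_map] at hprod
  obtain ⟨α, hα, hα2⟩ := Multiset.mem_map.1 (Multiset.prod_eq_zero_iff.1 hprod.symm)
  have hαr : ((sext a).map (Int.castRingHom K)).eval α = 0 := (mem_roots'.1 hα).2
  refine ⟨α, hαr, ?_⟩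
  have hred : ψ (b α) = Int.castRingHom k (a 0) * z := by
    simp only [Function.comp_apply, Polynomial.map_sub, Polynomial.map_mul, map_X, map_C,
      coe_evalRingHom, eval_sub, eval_mul, eval_X, eval_C] at hα2
    have h7 : ψ ((a 0 : ℤ) : 𝓞 K) = Int.castRingHom k (a 0) := map_intCast ψ (a 0)
    rw [h7] at hα2
    exact (sub_eq_zero.1 hα2).symm
  -- the derivative
  have hDk : eval (Int.castRingHom k (a 0) * z) (derivative (gg fun i => Int.castRingHom k (a i))) ≠ 0 := by
    have h8 := gg_d1 (fun i => Int.castRingHom k (a i)) z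
    have h9 : eval (Int.castRingHom k (a 0) * z) (derivative (gg fun i => Int.castRingHom k (a i))) =
        Int.castRingHom k (a 0) ^ 4 * eval z (derivative (sext fun i => Int.castRingHom k (a i))) := h8
    rw [h9]
    exact mul_ne_zero (pow_ne_zero _ ha0) hz2
  have hDQ : eval (b α) (derivative ((gg a).map (Int.castRingHom (𝓞 K)))) ∉ Q := by
    rw [← hψ]
    intro h10
    apply hDk
    rw [← hred, ← gg_map (Int.castRingHom k) a, ← hcomp, ← Polynomial.map_map, derivative_map,
      eval_map, eval₂_at_apply]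
    exact h10
  have hv0 : v ((a 0 : ℤ) : K) = 1 := by
    have h11 := (hnot ((a 0 : ℤ) : 𝓞 K)).2 fun h => ha0 (by
      have h12 := (hψ _).2 h
      rw [map_intCast] at h12
      exact h12)
    simpa using h11
  have hvD := (hnot _).2 hDQ
  have hcoe : ((eval (b α) (derivative ((gg a).map (Int.castRingHom (𝓞 K)))) : 𝓞 K) : K) =
      (a 0 : K) ^ 4 * eval α (derivative ((sext a).map (Int.castRingHom K))) := by
    have h13 : algebraMap (𝓞 K) K (eval (b α) (derivative ((gg a).map (Int.castRingHom (𝓞 K))))) =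
        eval (algebraMap (𝓞 K) K (b α)) (derivative (gg fun i => ((a i : ℤ) : K))) := by
      have h14 : (gg fun i => ((a i : ℤ) : K)) =
          ((gg a).map (Int.castRingHom (𝓞 K))).map (algebraMap (𝓞 K) K) := by
        rw [Polynomial.map_map, gg_map]
        congr 1
      rw [h14]
      generalize (gg a).map (Int.castRingHom (𝓞 K)) = G
      rw [derivative_map, eval_map, eval₂_at_apply]
    have h15 : algebraMap (𝓞 K) K (b α) = (a 0 : K) * α := hb α hαr
    have h16 : eval ((a 0 : K) * α) (derivative (gg fun i => ((a i : ℤ) : K))) = (a 0 : K) ^ 4 *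
        eval α (derivative (sext fun i => ((a i : ℤ) : K))) := gg_d1 (fun i => ((a i : ℤ) : K)) α
    have h17 : sext (fun i => ((a i : ℤ) : K)) = (sext a).map (Int.castRingHom K) :=
      (hna ℤ K (Int.castRingHom K) a).1
    rw [h15, h16, h17] at h13
    exact h13
  rw [hcoe, map_mul, map_pow, hv0, one_pow, one_mul] at hvD
  exact hvD

end Pool.Agent.TTC.H50
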